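import Pool.Agent.Helper69.OT.Graph
import Pool.Agent.Helper69.OT.Cert
import Pool.Agent.Helper69.OT.Trees
import Pool.Agent.Helper84.OT.Main

/-!
# Every orthotree has an edge unfolding
-/

namespace Pool.Agent.Results.MP_409f7f_co.Orthotrees

open Pool.Agent.Helper17.UF Pool.Agent.Helper84.LD Pool.Agent.Helper84.OT
  Pool.Agent.Helper69.OT

/-- Let finitely many boxes (bricks) with integer corners have disjoint interiors, and suppose
that two bricks that share a unit square are glued along whole faces.  If the graph of the bricks
(two bricks are joined if they share a unit square) is a tree, and two unit cubes of the union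
that share exactly an edge always have a common neighbour in the union, then the surface of the
union can be cut along edges of the bricks and unfolded into the plane without overlap. -/
theorem result {ι : Type} [Fintype ι] (lo hi : ι → Cube) (hS : BrickSys lo hi)
    (hT : (brickGraph lo hi).IsTree) (hE : EdgeOK (cubes lo hi)) :
    HasBrickUnfolding lo hi := by
  have hG : bgraph (bnb lo hi) = brickGraph lo hi := by
    ext i j
    constructor
    · rintro ⟨-, ⟨d, h⟩ | ⟨d, h⟩⟩
      · exact ⟨d, (bnb_eq_some hS).1 h⟩
      · have h' : (brickGraph lo hi).Adj j i := ⟨d, (bnb_eq_some hS).1 h⟩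
        exact h'.symm
    · rintro ⟨d, h⟩
      exact ⟨h.1, Or.inl ⟨d, (bnb_eq_some hS).2 h⟩⟩
  have hA : (bgraph (bnb lo hi)).IsAcyclic := by
    rw [hG]
    exact hT.isAcyclic
  have hP : (bgraph (bnb lo hi)).Preconnected := by
    rw [hG]
    exact hT.1.preconnected
  have : Nonempty ι := hT.1.nonempty
  obtain ⟨N, χ, ρ, hF⟩ := exists_field_of_trees all_ok (nbOK_bnb hS hA) hA hP
  exact hF.brickUnfolding hS hE

end Pool.Agent.Results.MP_409f7f_co.Orthotrees
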