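import Pool.Agent.Helper53.GP.TieMain
import Pool.Agent.Helper24.GEO.Main
import Pool.Agent.Helper24.GEO.Hyp
import Pool.Agent.Helper84.LD.Stretch2
import Pool.Agent.Helper84.SURF.SymG

/-!
# A constant refinement: stretched polycubes with screws and ties have an edge unfolding

The stretch by the factors `4, 1, 2` in the directions `x, y, z` of every polycube with spherical
boundary that has no lattice point on boundary squares with opposite outer normals `+x, -x` and no
vertical screw of one handedness has an edge unfolding.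
-/

namespace Pool.Agent.Results.MP_409f7f_co.StretchedPolycubes

open Pool.Agent.Helper17.UF

/-- The lattice point `p` is a corner of the square `A = (v, d)`. -/
def Corner (A : Face) (p : Cube) : Prop :=
  (p.1 = A.1.1 ∨ p.1 = A.1.1 + 1) ∧ (p.2.1 = A.1.2.1 ∨ p.2.1 = A.1.2.1 + 1) ∧
  (p.2.2 = A.1.2.2 ∨ p.2.2 = A.1.2.2 + 1) ∧
  match A.2 with
  | Dir.px => p.1 = A.1.1 + 1
  | Dir.nx => p.1 = A.1.1
  | Dir.py => p.2.1 = A.1.2.1 + 1
  | Dir.ny => p.2.1 = A.1.2.1
  | Dir.pz => p.2.2 = A.1.2.2 + 1
  | Dir.nz => p.2.2 = A.1.2.2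

/-- The boundary surface of `P` is a sphere: every edge lies on only two boundary squares (two
cubes of `P` that share exactly an edge have a common neighbour in `P`), the surface is connected,
and the Euler characteristic is two (there are twice as many edges as boundary squares, so this
says that the number of vertices is the number of squares plus two). -/
structure Spherical (P : Finset Cube) : Prop where
  edge : ∀ v ∈ P, ∀ d t : Dir, Dir.perp d t = true → v + d.vec + t.vec ∈ P →
    v + d.vec ∈ P ∨ v + t.vec ∈ P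
  conn : ∀ A B, IsFace P A → IsFace P B → Relation.ReflTransGen
    (fun C D => IsFace P C ∧ IsFace P D ∧ ∃ e, IsEdge P e ∧ e ⊆ square C ∧ e ⊆ square D) A B
  euler : {p : Cube | ∃ A, IsFace P A ∧ Corner A p}.ncard = {A : Face | IsFace P A}.ncard + 2

/-- The symmetries of the cubic lattice, as maps of the cubes (given by their lower corners):
generated by translations, the cyclic permutation of the coordinates, the exchange of the first
two coordinates and the reflection of the first one (the cube `x..x+1` goes to `-x-1..-x`). -/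
inductive LatticeSymmetry : (Cube → Cube) → Prop
  | one : LatticeSymmetry fun v => v
  | shift {g : Cube → Cube} (a : Cube) (h : LatticeSymmetry g) : LatticeSymmetry fun v => g v + a
  | cyc {g : Cube → Cube} (h : LatticeSymmetry g) :
      LatticeSymmetry fun v => ((g v).2.1, (g v).2.2, (g v).1)
  | swap {g : Cube → Cube} (h : LatticeSymmetry g) :
      LatticeSymmetry fun v => ((g v).2.1, (g v).1, (g v).2.2)
  | refl {g : Cube → Cube} (h : LatticeSymmetry g) :
      LatticeSymmetry fun v => (-1 - (g v).1, (g v).2.1, (g v).2.2)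

/-- `R` is the stretch of `Q` by the factors `4, 1, 2` in the directions `x, y, z`: every cube of
`Q` is replaced by a brick of `4 × 1 × 2` cubes. -/
def IsStretch (Q R : Finset Cube) : Prop :=
  ∀ v : Cube, v ∈ R ↔ ((v.1 / 4, v.2.1, v.2.2 / 2) : Cube) ∈ Q

/-- Some lattice point is a corner of boundary squares with the outer normals `+x` and `-x`. -/
def HasOpposite (Q : Finset Cube) : Prop :=
  ∃ (A B : Face) (p : Cube), IsFace Q A ∧ IsFace Q B ∧ A.2 = Dir.px ∧ B.2 = Dir.nx ∧
    Corner A p ∧ Corner B p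

/-- There is a vertical screw of one handedness: around some lattice point the cubes of `Q` are
`c`, `c + (s,0,0)`, `c + (s,0,t)`, `c + (s,-st,t)` with `s, t = ±1`. -/
def HasVerticalScrew (Q : Finset Cube) : Prop :=
  ∃ (c : Cube) (s t : ℤ), (s = 1 ∨ s = -1) ∧ (t = 1 ∨ t = -1) ∧
    c ∈ Q ∧ c + (s, 0, 0) ∈ Q ∧ c + (s, 0, t) ∈ Q ∧ c + (s, -(s * t), t) ∈ Q ∧
    c + (0, 0, t) ∉ Q ∧ c + (0, -(s * t), 0) ∉ Q ∧ c + (0, -(s * t), t) ∉ Q ∧
    c + (s, -(s * t), 0) ∉ Q

private theorem latSym_of {g : Cube → Cube} (h : LatticeSymmetry g) :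
    Pool.Agent.Helper84.SURF.LatSym g := by
  induction h with
  | one => exact .one
  | shift a _ ih => exact .shift a ih
  | cyc _ ih => exact .cyc ih
  | swap _ ih => exact .swap ih
  | refl _ ih => exact .refl ih

private theorem corner_onF {Q : Finset Cube} {d : Dir} {p : Cube}
    (h : Pool.Agent.Helper53.GP.OnF Q d p) : ∃ A : Face, IsFace Q A ∧ A.2 = d ∧ Corner A p := by
  obtain ⟨A, t, w, hA, rfl, h1, h2, h3, rfl⟩ := h
  exact ⟨A, hA, rfl, Pool.Agent.Helper84.SURF.corner_crn h1 h2 h3⟩

private theorem screw_of {Q : Finset Cube} (h : Pool.Agent.Helper53.GP.BadZ Q) :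
    HasVerticalScrew Q := by
  obtain ⟨c, s1, s2, a1, a2, p0, p1, p2, p3, q1, q2, q3, q4⟩ := h
  obtain ⟨x, y, z⟩ := c
  have k1 : s1 = Dir.px ∨ s1 = Dir.nx := by
    revert a1; cases s1 <;> decide
  have k2 : s2 = Dir.pz ∨ s2 = Dir.nz := by
    revert a2; cases s2 <;> decide
  have c1 : Dir.cross Dir.px Dir.pz = Dir.ny := by decide
  have c2 : Dir.cross Dir.px Dir.nz = Dir.py := by decide
  have c3 : Dir.cross Dir.nx Dir.pz = Dir.py := by decide
  have c4 : Dir.cross Dir.nx Dir.nz = Dir.ny := by decide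
  rcases k1 with rfl | rfl <;> rcases k2 with rfl | rfl
  · refine ⟨(x, y, z), 1, 1, Or.inl rfl, Or.inl rfl, p0, ?_⟩
    simp only [c1, Dir.vec, Prod.mk_add_mk, add_zero] at p1 p2 p3 q1 q2 q3 q4
    simp only [Prod.mk_add_mk, mul_one, add_zero]
    exact ⟨p1, p2, p3, q1, q2, q3, q4⟩
  · refine ⟨(x, y, z), 1, -1, Or.inl rfl, Or.inr rfl, p0, ?_⟩
    simp only [c2, Dir.vec, Prod.mk_add_mk, add_zero] at p1 p2 p3 q1 q2 q3 q4
    simp only [Prod.mk_add_mk, one_mul, neg_neg, add_zero]
    exact ⟨p1, p2, p3, q1, q2, q3, q4⟩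
  · refine ⟨(x, y, z), -1, 1, Or.inr rfl, Or.inl rfl, p0, ?_⟩
    simp only [c3, Dir.vec, Prod.mk_add_mk, add_zero] at p1 p2 p3 q1 q2 q3 q4
    simp only [Prod.mk_add_mk, mul_one, neg_neg, add_zero]
    exact ⟨p1, p2, p3, q1, q2, q3, q4⟩
  · refine ⟨(x, y, z), -1, -1, Or.inr rfl, Or.inr rfl, p0, ?_⟩
    simp only [c4, Dir.vec, Prod.mk_add_mk, add_zero] at p1 p2 p3 q1 q2 q3 q4
    simp only [Prod.mk_add_mk, mul_neg, mul_one, neg_neg, add_zero]
    exact ⟨p1, p2, p3, q1, q2, q3, q4⟩

/-- Let `Q` be a polycube with spherical boundary such that no lattice point is a corner of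
boundary squares with the outer normals `+x` and `-x`, and without vertical screws of one
handedness. Then every polycube `P` that is congruent to the stretch of `Q` by the factors
`4, 1, 2` in the directions `x, y, z` has an edge unfolding. -/
theorem result : ∀ (P Q : Finset Cube) (g : Cube → Cube), LatticeSymmetry g →
    IsStretch Q (P.image g) → Spherical Q → ¬ HasOpposite Q → ¬ HasVerticalScrew Q →
    HasEdgeUnfolding P := by
  classical
  rintro P Q g hg hP ⟨h1, h2, h3⟩ hopp hscr
  have hE : Pool.Agent.Helper84.LD.EdgeOK Q := by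
    intro y hy u v huv hu hv huv'
    rcases h1 y hy u v huv huv' with h | h
    · exact hu h
    · exact hv h
  have hS := Pool.Agent.Helper24.GEO.surfConn_of hE h2
  have hV := Pool.Agent.Helper24.GEO.euler_of hE h3
  set s : Fin 3 → Pool.Agent.Helper84.LD.Str.Stp := ![Pool.Agent.Helper84.LD.Str.Stp.div 4 (by norm_num),
    Pool.Agent.Helper84.LD.Str.Stp.div 1 (by norm_num), Pool.Agent.Helper84.LD.Str.Stp.div 2 (by norm_num)]
    with hs
  have hstr : P.image g = Pool.Agent.Helper84.LD.Str.str s Q := by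
    ext v
    rw [hP v, Pool.Agent.Helper84.LD.Str.mem_str]
    have : Pool.Agent.Helper84.LD.Str.fl s v = (v.1 / 4, v.2.1, v.2.2 / 2) := by
      show (v.1 / 4, v.2.1 / 1, v.2.2 / 2) = _
      rw [Int.ediv_one]
    rw [this]
  have key : HasEdgeUnfolding (P.image g) := by
    rw [hstr]
    refine Pool.Agent.Helper53.GP.tie_unfolding
      (fun R c hR1 hR2 hR3 hR4 => Pool.Agent.Helper24.GEO.CanCol_conn hR1 hR2 hR3 hR4)
      (Pool.Agent.Helper84.LD.Str.man_str hE) (Pool.Agent.Helper84.LD.Str.surfConn_str hS)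
      (Pool.Agent.Helper84.LD.Str.euler2_str hE hV) ?_ ?_ ?_ ?_
    · intro v
      rw [← hstr, hP v, hP]
      have : (4 * (v.1 / 4)) / 4 = v.1 / 4 := by omega
      simp only [this]
    · rintro ⟨v, d⟩ hA hw
      have hc := (Pool.Agent.Helper84.LD.Str.isFace_str.1 hA).1
      have hd : d = Dir.pz ∨ d = Dir.nz := by
        have : d.axis = 2 := not_not.1 hw
        revert this
        cases d <;> decide
      rcases hd with rfl | rfl
      · have h : 2 * ((v.2.2 + 1) / 2) = v.2.2 + 1 := hc
        show (v.2.2 + 1) % 2 = 0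
        omega
      · have h : 2 * (v.2.2 / 2) = v.2.2 := hc
        show v.2.2 % 2 = 0
        omega
    · refine Pool.Agent.Helper84.LD.Str.noOpp_str ?_
      intro p hp1 hp2
      obtain ⟨A, hA, hA2, hAp⟩ := corner_onF hp1
      obtain ⟨B, hB, hB2, hBp⟩ := corner_onF hp2
      exact hopp ⟨A, B, p, hA, hB, hA2, hB2, hAp, hBp⟩
    · intro hbad
      exact hscr (screw_of (Pool.Agent.Helper84.LD.Str.badZ_str hbad))
  obtain ⟨σ, hσ⟩ := (latSym_of hg).exists_lsym
  refine Pool.Agent.Helper84.SURF.HasEdgeUnfolding.of_img σ ?_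
  have e : Pool.Agent.Helper84.SURF.img σ P = P.image g := by
    ext v
    simp only [Pool.Agent.Helper84.SURF.img, Finset.mem_map, Finset.mem_image,
      Equiv.coe_toEmbedding, hσ]
  rw [e]
  exact key

end Pool.Agent.Results.MP_409f7f_co.StretchedPolycubes
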