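import Pool.Agent.Helper24.GEO.Main
import Pool.Agent.Helper24.GEO.Hyp
import Pool.Agent.Helper84.SURF.SymG

/-!
# Polycubes of genus zero without a bad run have an edge unfolding

In particular all polycubes with a spherical boundary for which there are two coordinate directions
such that no lattice plane orthogonal to one of them contains boundary squares with opposite outer
normals.
-/

namespace Pool.Agent.Results.MP_409f7f_co.TieFree

open Pool.Agent.Helper17.UF

/-- The direction of the height `z`: `+x, +y, -x, -y` for `z = 0, 1, 2, 3` modulo 4. -/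
def dir (z : ℤ) : Dir :=
  if z % 4 = 0 then Dir.px else if z % 4 = 1 then Dir.py else if z % 4 = 2 then Dir.nx
  else Dir.ny

/-- The lattice point `p` is a corner of the square `A = (v, d)`. -/
def Corner (A : Face) (p : Cube) : Prop :=
  (p.1 = A.1.1 ∨ p.1 = A.1.1 + 1) ∧ (p.2.1 = A.1.2.1 ∨ p.2.1 = A.1.2.1 + 1) ∧
  (p.2.2 = A.1.2.2 ∨ p.2.2 = A.1.2.2 + 1) ∧
  match A.2 with
  | Dir.px => p.1 = A.1.1 + 1
  | Dir.nx => p.1 = A.1.1
  | Dir.py => p.2.1 = A.1.2.1 + 1
  | Dir.ny => p.2.1 = A.1.2.1
  | Dir.pz => p.2.2 = A.1.2.2 + 1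
  | Dir.nz => p.2.2 = A.1.2.2

/-- The boundary surface of `P` is a sphere: every edge lies on only two boundary squares (two
cubes of `P` that share exactly an edge have a common neighbour in `P`), the surface is connected,
and the Euler characteristic is two (there are twice as many edges as boundary squares, so this
says that the number of vertices is the number of squares plus two). -/
structure Spherical (P : Finset Cube) : Prop where
  edge : ∀ v ∈ P, ∀ d t : Dir, Dir.perp d t = true → v + d.vec + t.vec ∈ P →
    v + d.vec ∈ P ∨ v + t.vec ∈ P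
  conn : ∀ A B, IsFace P A → IsFace P B → Relation.ReflTransGen
    (fun C D => IsFace P C ∧ IsFace P D ∧ ∃ e, IsEdge P e ∧ e ⊆ square C ∧ e ⊆ square D) A B
  euler : {p : Cube | ∃ A, IsFace P A ∧ Corner A p}.ncard = {A : Face | IsFace P A}.ncard + 2

/-- The symmetries of the cubic lattice, as maps of the cubes (given by their lower corners):
generated by translations, the cyclic permutation of the coordinates, the exchange of the first
two coordinates and the reflection of the first one (the cube `x..x+1` goes to `-x-1..-x`). -/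
inductive LatticeSymmetry : (Cube → Cube) → Prop
  | one : LatticeSymmetry fun v => v
  | shift {g : Cube → Cube} (a : Cube) (h : LatticeSymmetry g) : LatticeSymmetry fun v => g v + a
  | cyc {g : Cube → Cube} (h : LatticeSymmetry g) :
      LatticeSymmetry fun v => ((g v).2.1, (g v).2.2, (g v).1)
  | swap {g : Cube → Cube} (h : LatticeSymmetry g) :
      LatticeSymmetry fun v => ((g v).2.1, (g v).1, (g v).2.2)
  | refl {g : Cube → Cube} (h : LatticeSymmetry g) :
      LatticeSymmetry fun v => (-1 - (g v).1, (g v).2.1, (g v).2.2)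

/-- The step from `p` to `q` goes along a side of a horizontal boundary square, parallel to
`dir (z + 1)` where `z` is the height: against this direction if the square faces up, in this
direction if it faces down. -/
def Step (P : Finset Cube) (p q : Cube) : Prop :=
  (∃ v, IsFace P (v, Dir.pz) ∧ Corner (v, Dir.pz) p ∧ Corner (v, Dir.pz) q ∧
    p = q + (dir (q.2.2 + 1)).vec) ∨
  ∃ v, IsFace P (v, Dir.nz) ∧ Corner (v, Dir.nz) p ∧ Corner (v, Dir.nz) q ∧
    q = p + (dir (p.2.2 + 1)).vec

/-- There is a bad run: steps lead from a corner `p` of a boundary square with outer normal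
`dir p_z` to a corner `q` of a boundary square with outer normal `-dir q_z` (`p = q` is
possible). -/
def BadRun (P : Finset Cube) : Prop :=
  ∃ (A B : Face) (p q : Cube), IsFace P A ∧ Corner A p ∧ A.2 = dir p.2.2 ∧
    Relation.ReflTransGen (Step P) p q ∧ IsFace P B ∧ Corner B q ∧ B.2 = (dir q.2.2).neg

/-- No vertical lattice plane contains boundary squares with opposite outer normals. -/
def GeneralPosition (P : Finset Cube) : Prop :=
  (∀ v w : Cube, IsFace P (v, Dir.px) → IsFace P (w, Dir.nx) → v.1 + 1 ≠ w.1) ∧
  ∀ v w : Cube, IsFace P (v, Dir.py) → IsFace P (w, Dir.ny) → v.2.1 + 1 ≠ w.2.1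

private theorem good_of {P : Finset Cube} (h : ¬ BadRun P) :
    Pool.Agent.Helper84.SURF.Good P {q | ∃ (A : Face) (p : Cube), IsFace P A ∧ Corner A p ∧
      A.2 = dir p.2.2 ∧ Relation.ReflTransGen (Step P) p q} := by
  refine ⟨?_, ?_, ?_⟩
  · intro A p hA hp hd
    constructor
    · rintro ⟨B, q, hB, hq, hBd, hrun⟩
      rcases hd with hd | hd
      · exact hd
      · exact absurd ⟨B, A, q, p, hB, hq, hBd, hrun, hA, hp, hd⟩ h
    · intro hd'
      exact ⟨A, p, hA, hp, hd', Relation.ReflTransGen.refl⟩
  · rintro v p hv hp hp' ⟨A, r, hA, hr, hAd, hrun⟩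
    exact ⟨A, r, hA, hr, hAd, hrun.tail (Or.inl ⟨v, hv, hp', hp, rfl⟩)⟩
  · rintro v p hv hp hp' ⟨A, r, hA, hr, hAd, hrun⟩
    exact ⟨A, r, hA, hr, hAd, hrun.tail (Or.inr ⟨v, hv, hp, hp', rfl⟩)⟩

private theorem latSym_of {g : Cube → Cube} (h : LatticeSymmetry g) :
    Pool.Agent.Helper84.SURF.LatSym g := by
  induction h with
  | one => exact .one
  | shift a _ ih => exact .shift a ih
  | cyc _ ih => exact .cyc ih
  | swap _ ih => exact .swap ih
  | refl _ ih => exact .refl ih

/-- Let `P` be a polycube whose boundary surface is a sphere. If for some symmetry `g` of the cubic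
lattice the polycube `g P` has no bad run, then `P` has an edge unfolding. A polycube in general
position (no vertical lattice plane contains boundary squares with opposite outer normals) has no
bad run. -/
theorem result :
    (∀ P : Finset Cube, Spherical P →
      (∃ g, LatticeSymmetry g ∧ ¬ BadRun (P.image g)) → HasEdgeUnfolding P) ∧
    ∀ P : Finset Cube, GeneralPosition P → ¬ BadRun P := by
  classical
  refine ⟨?_, ?_⟩
  · rintro P ⟨h1, h2, h3⟩ ⟨g, hg, hrun⟩
    have hE : Pool.Agent.Helper84.LD.EdgeOK P := by
      intro y hy u v huv hu hv huv'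
      rcases h1 y hy u v huv huv' with h | h
      · exact hu h
      · exact hv h
    refine (latSym_of hg).reduce hE (Pool.Agent.Helper24.GEO.surfConn_of hE h2)
      (Pool.Agent.Helper24.GEO.euler_of hE h3) ?_
    rintro Q rfl hE' hS' hV'
    exact Pool.Agent.Helper24.GEO.CanCol_unfolding hE' hS' hV' (good_of hrun).canCol
  · rintro P hP ⟨A, B, p, q, hA, hp, hAd, hrun, hB, hq, hBd⟩
    obtain ⟨W, hW⟩ := Pool.Agent.Helper84.SURF.GeneralPosition.exists_good (P := P) hP
    have h1 : p ∈ W := (hW.wall A p hA hp (Or.inl hAd)).2 hAd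
    have h2 : q ∈ W := by
      clear hB hq hBd
      induction hrun with
      | refl => exact h1
      | tail _ hs ih =>
        rcases hs with ⟨v, hv, ha, hb, he⟩ | ⟨v, hv, ha, hb, he⟩
        · subst he
          exact hW.up v _ hv hb ha ih
        · subst he
          exact hW.down v _ hv ha hb ih
    have h3 := (hW.wall B q hB hq (Or.inr hBd)).1 h2
    rw [hBd] at h3
    have key : ∀ d : Dir, d.neg ≠ d := by decide
    exact key _ h3

end Pool.Agent.Results.MP_409f7f_co.TieFree
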